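import Pool.Agent.Q170.SA.Main
import Pool.Agent.Q170.SA.Count
import Pool.Agent.W282.LF.Top
import Pool.Agent.W466.EM

/-!
# MP_dd1803_nt: Zilber-Pink and Mordell-Lang for almost all members of families of subvarieties of
split semiabelian varieties which degenerate to the origin along one hypersurface

Let `K ⊂ ℂ` be a countable field and `𝒮 → 𝔸^r` a family of split semiabelian varieties
`S_t = ∏_g E_{g,t}^(n_g) × G_m^q`, where `E_{g,t} : y² = x³ + A_g (t) x + B_g (t)` with polynomials
`A_g, B_g` in `t = (t_1, …, t_r)` over `K`. On every factor let a function `φ_i` be given whose only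
pole is the origin, with a pole of the same prime order `κ` on all factors (`Pt.fn`): on the elliptic
factors `φ_i = f_i (x) + y h_i (x)`, with `h_i` monic of degree `(κ - 3) / 2` and `f_i` of degree at
most `(κ - 1) / 2`, for example `y` if `κ = 3`, and on `G_m` `φ_i = f_i (1 / (u - 1))` with `f_i`
monic of degree `κ`; the coefficients of `f_i, h_i` are polynomials in `t`. Let `B_t ⊂ P^N` be a
family of projective algebraic sets, defined by forms whose coefficients are polynomials in `t`, let
`a_i, b_i` be forms of the same degree over `K[t]`, and `c_i ∈ K[t]`. The member `X_t ⊂ S_t` of the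
family consists of the points `z` with
`φ_i (z_i) = a_i (y) / (c_i (t) b_i (y))` for all `i`, for a point `y` of `B_t` (`Family.member`; the
equations are written without denominators). It is the preimage of a subvariety of `(P¹)^n` under the
finite morphism `(φ_i)`.

The family degenerates to the origin along one hypersurface `D (t) = 0` (`DegeneratesAlong`):
`c_i = D^(e_i) b'_i`, and for all `t ∈ ℂ^r` with `D (t) = 0`, outside of a hypersurface `E (t) = 0`,
one has `b'_i (t) ≠ 0` and no point of `B_t` lies on `m + 1` of the divisors `a_i b_i = 0`; for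
`dim B_t = m` this is the case in general. The orders `e_i` are not divisible by `κ`, they are
different modulo `κ` for different factors `E_g` with the same `g` and for different factors `G_m`,
and `4 e_i > κ` on the elliptic factors.

Let `F` be a finitely generated subfield of `K`. The sets `Z` (`Special.locus`) are the translates of
algebraic subgroups of `S_t`, given by relations between the `P_{g,i}` for the same `g` and
multiplicative relations between the `u_j`, by points of the division hull of `S_t (F)`. For almost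
all `t` (if `E_{g,t}` has no complex multiplication, and `E_{g,t}, E_{g',t}` are not isogenous) these
are all the translates of algebraic subgroups by such points.

(1) There is `Q` such that `X_t` has no atypical intersection with any such `Z` for all `t ∈ ℤ^r` for
which there is a prime `p > Q` such that the exponent of `p` in `D (t)` is not divisible by `κ`, and
`p` does not divide `E (t)`: every point of `X_t ∩ Z` has transcendence degree at most `m - codim Z`
over `K`, and every irreducible closed set in `X_t ∩ Z` has dimension at most `m - codim Z`. In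
particular `X_t ∩ Z` is empty for `codim Z > m`.

(2) If `D` is not constant and `D, E` have no common factor, then the number of `t ∈ ℤ^r` with
`|t_j| ≤ H` for which `X_t` has an atypical intersection is at most
`C H^(r - 1 + deg D / κ + ε)`, for every `ε > 0`.
-/

set_option autoImplicit false

namespace Pool.Agent.Results.MP_dd1803_nt.DegenerationsToTheOrigin

open MvPolynomial Pool.Agent.W466.EP Pool.Agent.W282.ZP Pool.Agent.W282.LF

/-- The index set of the factors of `∏_g E_g^(n_g) × G_m^q`. -/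
abbrev Ind {s : ℕ} (n : Fin s → ℕ) (q : ℕ) : Type := ((g : Fin s) × Fin (n g)) ⊕ Fin q

/-- The complex points of `∏_g E_g^(n_g) × G_m^q`, where `E_g = crv (A g) (B g)` is the curve
`y² = x³ + A_g x + B_g`. -/
structure Amb {s : ℕ} (A B : Fin s → ℂ) (n : Fin s → ℕ) (q : ℕ) where
  P : ∀ g, Fin (n g) → (crv (A g) (B g)).Point
  u : Fin q → ℂˣ

section ambient

variable {s q : ℕ} {A B : Fin s → ℂ} {n : Fin s → ℕ}

/-- The coordinates `x (P_{g,i})` (which is `0` by definition if `P_{g,i}` is the origin) and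
`u_j`. -/
noncomputable def coords (z : Amb A B n q) : Ind n q → ℂ :=
  Sum.elim (fun i => xx (z.P i.1 i.2)) (fun j => (z.u j : ℂ))

/-- The component of the point on the given factor is the origin. -/
def IsOrigin (z : Amb A B n q) : Ind n q → Prop :=
  Sum.elim (fun i => z.P i.1 i.2 = 0) (fun j => z.u j = 1)

/-- The translate of an algebraic subgroup of `∏_g E_g^(n_g) × G_m^q` by a point `pt` of the division
hull of its group of `F`-rational points: the relations `relE g` between the `P_{g,i}`, the relations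
`relm` between the `u_j`, up to torsion of order `T`. -/
structure Special (A B : Fin s → ℂ) (n : Fin s → ℕ) (q : ℕ) (F : Subfield ℂ) where
  T : ℕ
  T0 : 0 < T
  relE : ∀ g, Submodule ℤ (Fin (n g) → ℤ)
  relm : Submodule ℤ (Fin q → ℤ)
  pt : Amb A B n q
  hullE : ∀ g i, ∃ M : ℕ, 0 < M ∧ Rat F (M • pt.P g i)
  hullm : ∀ j, ∃ M : ℕ, 0 < M ∧ ((pt.u j : ℂˣ) : ℂ) ^ M ∈ F

/-- The points of `Z`. -/
def Special.locus {F : Subfield ℂ} (Z : Special A B n q F) : Set (Amb A B n q) :=
  {z | (∀ g, ∀ ρ ∈ Z.relE g, Z.T • ∑ i, ρ i • z.P g i = Z.T • ∑ i, ρ i • Z.pt.P g i) ∧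
    ∀ β ∈ Z.relm, (∏ j, z.u j ^ β j) ^ Z.T = (∏ j, Z.pt.u j ^ β j) ^ Z.T}

/-- The codimension of `Z`. -/
noncomputable def Special.codim {F : Subfield ℂ} (Z : Special A B n q F) : ℕ :=
  ∑ g, Module.finrank ℤ (Z.relE g) + Module.finrank ℤ Z.relm

/-- `V` has no intersection of dimension larger than `m - codim Z` with the sets `Z`: every point
of `V ∩ Z` has transcendence degree at most `m - codim Z` over `K`, and every irreducible closed
set `W` of vectors, such that those outside of some hypersurface `p = 0`, which does not contain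
`W`, are vectors of coordinates (numbered in any way) of points of `V ∩ Z`, has dimension at most
`m - codim Z`. -/
def NoAtypical (K F : Subfield ℂ) (m : ℕ) (V : Set (Amb A B n q)) : Prop :=
  ∀ Z : Special A B n q F,
    (∀ z ∈ V ∩ Z.locus, ∀ S : Finset (Ind n q),
      AlgebraicIndependent K (fun i : S => coords z i) → S.card + Z.codim ≤ m) ∧
    ∀ (d : ℕ) (σ : Fin d ≃ Ind n q) (W : Set (Fin d → ℂ)) (p : MvPolynomial (Fin d) ℂ),
      (∀ w ∈ W, eval w p ≠ 0 → ∃ z ∈ V ∩ Z.locus, ∀ i, w i = coords z (σ i)) →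
      zcl W ⊆ W → (idealOf W).IsPrime → p ∉ idealOf W →
      zdim W + (Z.codim : Cardinal) ≤ (m : Cardinal)

end ambient

/-- The value at the parameter `t` of a polynomial with coefficients in `K`. -/
noncomputable def evalAt (K : Subfield ℂ) {r : ℕ} (t : Fin r → ℂ) :
    MvPolynomial (Fin r) K →+* ℂ :=
  (aeval t : MvPolynomial (Fin r) K →ₐ[K] ℂ).toRingHom

/-- the value of `f (x) + y h (x)` at a point of an elliptic curve (`0` by definition at the
origin) -/
noncomputable def valE {K : Subfield ℂ} {r : ℕ} (t : Fin r → ℂ)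
    (f h : Polynomial (MvPolynomial (Fin r) K)) {A B : ℂ} : (crv A B).Point → ℂ
  | .zero => 0
  | .some x y _ => f.eval₂ (evalAt K t) x + y * h.eval₂ (evalAt K t) x

/-- The data of a family of subsets of split semiabelian varieties. -/
structure Family (K : Subfield ℂ) (r N s q l : ℕ) (n : Fin s → ℕ) where
  /-- the coefficients of the curves `E_{g,t}` -/
  A : Fin s → MvPolynomial (Fin r) K
  B : Fin s → MvPolynomial (Fin r) K
  /-- the forms which define `B_t` -/
  G : Fin l → MvPolynomial (Fin (N + 1)) (MvPolynomial (Fin r) K)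
  /-- the forms `a_i, b_i` -/
  a : Ind n q → MvPolynomial (Fin (N + 1)) (MvPolynomial (Fin r) K)
  b : Ind n q → MvPolynomial (Fin (N + 1)) (MvPolynomial (Fin r) K)
  /-- the factors `c_i` -/
  c : Ind n q → MvPolynomial (Fin r) K
  /-- the polynomials which give the functions `φ_i` -/
  f : Ind n q → Polynomial (MvPolynomial (Fin r) K)
  h : (g : Fin s) × Fin (n g) → Polynomial (MvPolynomial (Fin r) K)

namespace Family

variable {K : Subfield ℂ} {r N s q l : ℕ} {n : Fin s → ℕ}

/-- The coefficients `A_g (t)` of the curves `E_{g,t}`. -/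
noncomputable def At (𝔛 : Family K r N s q l n) (t : Fin r → ℂ) (g : Fin s) : ℂ :=
  evalAt K t (𝔛.A g)

/-- The coefficients `B_g (t)` of the curves `E_{g,t}`. -/
noncomputable def Bt (𝔛 : Family K r N s q l n) (t : Fin r → ℂ) (g : Fin s) : ℂ :=
  evalAt K t (𝔛.B g)

/-- The values of the functions `φ_i` at a point of `S_t`: `f_i (x) + y h_i (x)` on the elliptic
factors, `f_i (1 / (u - 1))` on the factors `G_m`. -/
noncomputable def fn (𝔛 : Family K r N s q l n) (t : Fin r → ℂ)
    (z : Amb (𝔛.At t) (𝔛.Bt t) n q) : Ind n q → ℂ :=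
  Sum.elim (fun i => valE t (𝔛.f (Sum.inl i)) (𝔛.h i) (z.P i.1 i.2))
    (fun j => (𝔛.f (Sum.inr j)).eval₂ (evalAt K t) ((z.u j : ℂ) - 1)⁻¹)

/-- `y` is a vector of homogeneous coordinates of a point of `B_t`. -/
def OnB (𝔛 : Family K r N s q l n) (t : Fin r → ℂ) (y : Fin (N + 1) → ℂ) : Prop :=
  y ≠ 0 ∧ ∀ k, eval₂ (evalAt K t) y (𝔛.G k) = 0

/-- The member `X_t`, a subset of `S_t = ∏_g E_{g,t}^(n_g) × G_m^q`. -/
def member (𝔛 : Family K r N s q l n) (t : Fin r → ℂ) : Set (Amb (𝔛.At t) (𝔛.Bt t) n q) :=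
  {z | ∃ y, 𝔛.OnB t y ∧ ∀ i : Ind n q,
    (IsOrigin z i ∧ eval₂ (evalAt K t) y (𝔛.b i) = 0) ∨
    (¬ IsOrigin z i ∧ evalAt K t (𝔛.c i) * eval₂ (evalAt K t) y (𝔛.b i) * 𝔛.fn t z i =
      eval₂ (evalAt K t) y (𝔛.a i))}

/-- The `G_k` are forms, and `a_i, b_i` are forms of the same degree. -/
def AreForms (𝔛 : Family K r N s q l n) : Prop :=
  (∀ k, ∃ δ, (𝔛.G k).IsHomogeneous δ) ∧
    ∀ i, ∃ δ, (𝔛.a i).IsHomogeneous δ ∧ (𝔛.b i).IsHomogeneous δ

/-- The functions `φ_i` have a pole of order `κ` at the origin (and no other pole): `h_i` is monic of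
degree `(κ - 3) / 2` and the degree of `f_i` is less than `κ / 2` on the elliptic factors, and `f_i`
is monic of degree `κ` on the factors `G_m`. -/
def HavePoles (𝔛 : Family K r N s q l n) (κ : ℕ) : Prop :=
  (∀ i : (g : Fin s) × Fin (n g), (𝔛.h i).Monic ∧ 2 * (𝔛.h i).natDegree + 3 = κ ∧
    2 * (𝔛.f (Sum.inl i)).natDegree < κ) ∧
  ∀ j : Fin q, (𝔛.f (Sum.inr j)).Monic ∧ (𝔛.f (Sum.inr j)).natDegree = κ

/-- No point of `B_t` lies on `m + 1` of the divisors `a_i b_i = 0`. -/
def GeneralPosition (𝔛 : Family K r N s q l n) (m : ℕ) (t : Fin r → ℂ) : Prop :=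
  ∀ I : Finset (Ind n q), I.card = m + 1 → ∀ y, 𝔛.OnB t y →
    ∃ i ∈ I, eval₂ (evalAt K t) y (𝔛.a i) * eval₂ (evalAt K t) y (𝔛.b i) ≠ 0

/-- The condition on the orders `e_i`: they are prime to `κ`, different modulo `κ` for different
factors `E_g` with the same `g` and for different factors `G_m`, and larger than `κ / 4` on the
elliptic factors. -/
def AreOrders (κ : ℕ) (e : Ind n q → ℕ) : Prop :=
  (∀ i, ¬ κ ∣ e i) ∧ (∀ i : (g : Fin s) × Fin (n g), κ < 4 * e (Sum.inl i)) ∧
  (∀ (g : Fin s) (i j : Fin (n g)), i ≠ j →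
    ¬ e (Sum.inl ⟨g, i⟩) ≡ e (Sum.inl ⟨g, j⟩) [MOD κ]) ∧
  ∀ i j : Fin q, i ≠ j → ¬ e (Sum.inr i) ≡ e (Sum.inr j) [MOD κ]

/-- The functions `φ_i` have a pole of order `κ` at the origin and no other pole, and the family
degenerates to the origin along the hypersurface `D = 0`, outside of the hypersurface `E = 0`, with
the orders `e_i`. -/
structure DegeneratesAlong (𝔛 : Family K r N s q l n) (κ m : ℕ) (D E : MvPolynomial (Fin r) ℤ)
    (e : Ind n q → ℕ) : Prop where
  forms : 𝔛.AreForms
  poles : 𝔛.HavePoles κ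
  orders : AreOrders κ e
  /-- the degeneration -/
  factors : ∃ b' : Ind n q → MvPolynomial (Fin r) K,
    (∀ i, 𝔛.c i = MvPolynomial.map (Int.castRingHom K) D ^ e i * b' i) ∧
    ∀ t : Fin r → ℂ, aeval t D = 0 → aeval t E ≠ 0 → ∀ i, evalAt K t (b' i) ≠ 0
  position : ∀ t : Fin r → ℂ, aeval t D = 0 → aeval t E ≠ 0 → 𝔛.GeneralPosition m t

end Family

theorem rat_mono {F F' : Subfield ℂ} (h : F ≤ F') {A B : ℂ} {P : (crv A B).Point}
    (hP : Rat F P) : Rat F' P := by
  rcases P with _ | ⟨x, y, hn⟩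
  · trivial
  · exact ⟨h hP.1, h hP.2⟩

/-- Zilber-Pink and Mordell-Lang, with no atypical intersections at all, for almost all members with
integral parameters of a family of subvarieties of split semiabelian varieties which degenerates to
the origin along one hypersurface. -/
theorem result (K : Subfield ℂ) [Countable K] (r N s q l m κ : ℕ) (n : Fin s → ℕ)
    (𝔛 : Family K r N s q l n) (hκ : κ.Prime) (D E : MvPolynomial (Fin r) ℤ) (e : Ind n q → ℕ)
    (h𝔛 : 𝔛.DegeneratesAlong κ m D E e) (Γ : Finset ℂ) (hΓ : ∀ γ ∈ Γ, γ ∈ K) :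
    (∃ Q : ℕ, ∀ t : Fin r → ℤ, (∃ p : ℕ, p.Prime ∧ Q < p ∧
      ¬ κ ∣ (eval t D).natAbs.factorization p ∧ ¬ (p : ℤ) ∣ eval t E) →
        NoAtypical K (Subfield.closure (Γ : Set ℂ)) m (𝔛.member (fun j => (t j : ℂ)))) ∧
    (0 < D.totalDegree → IsRelPrime D E → ∀ ε : ℝ, 0 < ε → ∃ C : ℝ, 0 < C ∧ ∀ H : ℕ, 1 ≤ H →
      (({t : Fin r → ℤ | (∀ j, |t j| ≤ H) ∧
        ¬ NoAtypical K (Subfield.closure (Γ : Set ℂ)) m (𝔛.member (fun j => (t j : ℂ)))}.ncard : ℕ) : ℝ) ≤
        C * (H : ℝ) ^ ((r : ℝ) - 1 + D.totalDegree / (κ : ℝ) + ε)) := by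
  classical
  obtain ⟨b', hc, hb'⟩ := h𝔛.factors
  have hpos := h𝔛.position
  obtain ⟨hG, hab⟩ := h𝔛.forms
  obtain ⟨hE, hM⟩ := h𝔛.poles
  obtain ⟨he, he4, heE, heM⟩ := h𝔛.orders
  choose dg hab using hab
  -- enlarging the field by the coefficients of the curves
  let cA : Set K := ⋃ g, Pool.Agent.Q170.SA.cf (𝔛.A g)
  have hcA : cA.Finite := Set.finite_iUnion fun g => Pool.Agent.Q170.SA.cf_finite _
  let Γ' : Finset ℂ := Γ ∪ (hcA.toFinset.image fun z : K => (z : ℂ))
  have hΓ' : ∀ γ ∈ Γ', γ ∈ K := by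
    intro γ hγ
    rcases Finset.mem_union.1 hγ with h | h
    · exact hΓ γ h
    · obtain ⟨z, -, rfl⟩ := Finset.mem_image.1 h
      exact z.2
  have hle : Subfield.closure (Γ : Set ℂ) ≤ Subfield.closure (Γ' : Set ℂ) :=
    Subfield.closure_mono (by
      intro γ hγ
      exact Finset.mem_coe.2 (Finset.mem_union_left _ hγ))
  have hAF : ∀ (g : Fin s) (t : Fin r → ℤ), evalAt K (fun j => (t j : ℂ)) (𝔛.A g) ∈
      Subfield.closure (Γ' : Set ℂ) := by
    intro g t
    change aeval (fun j => (t j : ℂ)) (𝔛.A g) ∈ _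
    rw [aeval_def, eval₂_eq']
    refine sum_mem fun u hu => mul_mem ?_ (prod_mem fun j _ => pow_mem (intCast_mem _ _) _)
    refine Subfield.subset_closure (Finset.mem_coe.2 (Finset.mem_union_right _
      (Finset.mem_image.2 ⟨(𝔛.A g).coeff u, hcA.mem_toFinset.2
        (Set.mem_iUnion.2 ⟨g, ⟨u, hu, rfl⟩⟩), rfl⟩)))
  obtain ⟨Q, hQ⟩ := Pool.Agent.Q170.SA.mainS K (m := m) hκ 𝔛.A 𝔛.B 𝔛.G hG 𝔛.a 𝔛.b dg
    (fun i => (hab i).1) (fun i => (hab i).2) 𝔛.f 𝔛.h
    (fun i => ⟨(hE i).1, (hE i).2.1.symm, by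
      have h1 := (hE i).2.1
      have h2 := (hE i).2.2
      omega⟩) hM 𝔛.c D E b' e hc
    (fun t h1 h2 => ⟨fun I hI y hyG hyI => by
      by_contra hy0
      obtain ⟨i, hi, h3⟩ := hpos t h1 h2 I hI y ⟨hy0, hyG⟩
      exact h3 (hyI i hi), hb' t h1 h2⟩) he he4 heE heM Γ' hΓ'
  have h1 : ∀ t : Fin r → ℤ, (∃ p : ℕ, p.Prime ∧ Q < p ∧
      ¬ κ ∣ (eval t D).natAbs.factorization p ∧ ¬ (p : ℤ) ∣ eval t E) →
        NoAtypical K (Subfield.closure (Γ : Set ℂ)) m (𝔛.member (fun j => (t j : ℂ))) := by
    intro t ht Z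
    have hpt : ∀ z ∈ 𝔛.member (fun j => (t j : ℂ)) ∩ Z.locus, ∀ S : Finset (Ind n q),
        AlgebraicIndependent K (fun i : S => coords z i) → S.card + Z.codim ≤ m := by
      rintro z ⟨⟨y, hy, hz⟩, hzZ1, hzZ2⟩ S hS
      have h2 := hQ t ht z.P (fun j => (z.u j : ℂ)) y hy.1 hy.2
        (fun i => by
          rcases hz (Sum.inl i) with h3 | h3
          · exact Or.inl h3.2
          · right
            have h4 := h3.2
            have h5 : 𝔛.fn (fun j => (t j : ℂ)) z (Sum.inl i) = Pool.Agent.Q170.SA.phiE K (fun j => (t j : ℂ))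
                (𝔛.f (Sum.inl i)) (𝔛.h i) (z.P i.1 i.2) := by
              change valE _ _ _ (z.P i.1 i.2) = _
              generalize z.P i.1 i.2 = T
              rcases T with _ | ⟨x, y, hn⟩ <;> rfl
            rw [h5] at h4
            exact h4)
        (fun j => by
          rcases hz (Sum.inr j) with h3 | h3
          · exact Or.inl h3.2
          · exact Or.inr h3.2)
        Z.relE Z.relm
        (by
          intro g ρ hρ
          obtain ⟨M, hM, hR⟩ := divhull_rat (hAF g t)
            (s := {P | Rat (Subfield.closure (Γ' : Set ℂ)) P}) (fun P hP => hP) (Z.pt.P g)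
            (fun i => by
              obtain ⟨M, hM, h3⟩ := Z.hullE g i
              exact ⟨M, hM, AddSubgroup.subset_closure (rat_mono hle h3)⟩) ρ
          have key : Rat (Subfield.closure (Γ' : Set ℂ)) ((M * Z.T) • ∑ i, ρ i • z.P g i) := by
            rw [mul_smul, hzZ1 g ρ hρ, smul_comm]
            refine Rat.closure (hAF g t) (s := {M • ∑ i, ρ i • Z.pt.P g i}) ?_ _ ?_
            · rintro P hP
              rw [Set.mem_singleton_iff.1 hP]
              exact hR
            · exact nsmul_mem (AddSubgroup.subset_closure (Set.mem_singleton _)) _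
          exact ⟨M * Z.T, Nat.mul_pos hM Z.T0, key⟩)
        (by
          intro β hβ
          choose M hM hMF using Z.hullm
          refine ⟨Z.T * ∏ j, M j, Nat.mul_pos Z.T0 (Finset.prod_pos fun j _ => hM j), ?_⟩
          have h3 := congrArg (Units.val : ℂˣ → ℂ) (hzZ2 β hβ)
          rw [Units.val_pow_eq_pow_val, Units.val_pow_eq_pow_val] at h3
          have h4 : ∏ j, (z.u j : ℂ) ^ β j = ((∏ j, z.u j ^ β j : ℂˣ) : ℂ) := by
            rw [Units.coe_prod]
            refine Finset.prod_congr rfl fun j _ => ?_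
            rw [Units.val_zpow_eq_zpow_val]
          have h5 : ((∏ j, Z.pt.u j ^ β j : ℂˣ) : ℂ) = ∏ j, (Z.pt.u j : ℂ) ^ β j := by
            rw [Units.coe_prod]
            refine Finset.prod_congr rfl fun j _ => ?_
            rw [Units.val_zpow_eq_zpow_val]
          rw [h4, pow_mul, h3, h5, ← pow_mul, mul_comm, pow_mul, ← Finset.prod_pow]
          refine pow_mem (prod_mem fun j _ => ?_) _
          rw [← zpow_natCast, ← zpow_mul, mul_comm, zpow_mul, zpow_natCast]
          refine zpow_mem ?_ _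
          obtain ⟨M', hM'⟩ : M j ∣ ∏ j, M j := Finset.dvd_prod_of_mem M (Finset.mem_univ j)
          rw [hM', pow_mul]
          exact pow_mem (hle (hMF j)) _) S hS
      rw [add_assoc] at h2
      exact h2
    refine ⟨hpt, ?_⟩
    intro d σ W p hW hcl hprime hp
    obtain ⟨w, hwW, hpw, T, hT, hdim⟩ := generic_dim_open K W hprime hcl p hp
    obtain ⟨z, hz, hwz⟩ := hW w hwW hpw
    let S : Finset (Ind n q) := T.map σ.toEmbedding
    have hS : AlgebraicIndependent K (fun i : S => coords z i) := by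
      let f : S → T := fun i => ⟨σ.symm i, by
        obtain ⟨t, ht, hts⟩ := Finset.mem_map.1 i.2
        have h2 : σ.symm (i : Ind n q) = t := by
          rw [← hts]
          exact σ.symm_apply_apply t
        rw [h2]
        exact ht⟩
      have hf : Function.Injective f := by
        intro i i' hii
        have h2 := congrArg (Subtype.val : T → Fin _) hii
        exact Subtype.ext (σ.symm.injective h2)
      have h2 := hT.comp f hf
      convert h2 using 1
      funext i
      change coords z i = w (σ.symm i)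
      rw [hwz, σ.apply_symm_apply]
    have h2 := hpt z hz S hS
    rw [Finset.card_map] at h2
    calc zdim W + (Z.codim : Cardinal) ≤ (T.card : Cardinal) + (Z.codim : Cardinal) := by gcongr
      _ = ((T.card + Z.codim : ℕ) : Cardinal) := by push_cast; rfl
      _ ≤ (m : Cardinal) := by exact_mod_cast h2
  refine ⟨⟨Q, h1⟩, fun hDd hDE ε hε => ?_⟩
  obtain ⟨C, hC, hcard⟩ := Pool.Agent.Q170.SA.card_badS D E hDd hDE κ Q hκ.one_le ε hε
  refine ⟨C, hC, fun H hH => ?_⟩
  obtain ⟨S, hS⟩ : ∃ S : Set (Fin r → ℤ), S = {t : Fin r → ℤ | (∀ j, |t j| ≤ H) ∧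
      ¬ NoAtypical K (Subfield.closure (Γ : Set ℂ)) m (𝔛.member (fun j => (t j : ℂ)))} := ⟨_, rfl⟩
  rw [← hS]
  have hsub : S ⊆ ((Pool.Agent.Q170.ZP.Count.box r H : Finset (Fin r → ℤ)) :
      Set (Fin r → ℤ)) := by
    intro t ht
    rw [hS] at ht
    exact Finset.mem_coe.2 (Pool.Agent.Q170.ZP.Count.mem_box.2 ht.1)
  have hfin : S.Finite := (Finset.finite_toSet _).subset hsub
  have h2 := hcard H hH hfin.toFinset
    (fun t ht => Finset.mem_coe.1 (hsub (hfin.mem_toFinset.1 ht)))
    (fun t ht hex => by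
      have h3 := hfin.mem_toFinset.1 ht
      rw [hS] at h3
      exact h3.2 (h1 t hex))
  rwa [← Set.ncard_eq_toFinset_card S hfin] at h2

end Pool.Agent.Results.MP_dd1803_nt.DegenerationsToTheOrigin
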