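import Mathlib
import Pool.Agent.Q79.ZB.Coset2

/-!
MP_dd1803_nt, Q1, abelian case: the points of a fibre of a finite morphism to a projective space are
not concentrated on a coset of a proper algebraic subgroup.
-/

set_option autoImplicit false

namespace Pool.Agent.Results.MP_dd1803_nt.FewOnOneCoset

open Pool.Agent.Q8.KS Pool.Agent.Q79.ZB
open Pool.Agent.Q8.ZA (AbelianVariety DefinedOver)

/-- Let `A` be an abelian variety over a number field `K` with absolute Galois group `G` over which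
all endomorphisms of `A` are defined, let `j : W → A` be a morphism from a projective variety of
dimension `m` (e.g. a subvariety of `A`) whose image is not contained in a translate of a proper
abelian subvariety, and let `φ : W → ℙ^m` be a finite morphism of degree `N`, `H = φ^* O(1)`. There
are a proper closed subset `Z` of `W` and a constant `C` with the following properties.

(1) Let `t` be a point of `ℙ^m` outside `φ(Z)` with `h(t) ≥ C`, and let `γ` be any point of `A` over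
the algebraic closure of `K`. For every algebraic subgroup `H' ≠ A` at least `N / (m + 1)` of the
`N` points `w` of `φ⁻¹(t)`, counted with multiplicity, lie outside `γ + H'`; and for every nef class
`D` at least `N / (m + 1)` of them satisfy `C ĥ_D(j(w) - γ) ≥ (j^* D ⋅ H^(m-1)) h(t)`.

(2) Let `w` be a point with `[K(w) : K(φ(w))] > (1 - 1/(m+1)) N`, `h(φ(w)) ≥ C` and `φ(w)` not in
`φ(Z)`, and let `γ` be a point of `A` over `K(φ(w))`. Then `j(w)` is not in `γ + H'` for any
algebraic subgroup `H' ≠ A`, and `C ĥ_D(j(w) - γ) ≥ (j^* D ⋅ H^(m-1)) h(φ(w))` for every nef class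
`D`.

(3) For every `e` there are only finitely many `w` with `[K(w) : K(φ(w))] > (1 - 1/(m+1)) N`,
`[K(φ(w)) : K] ≤ e` and `φ(w)` not in `φ(Z)` such that `j(w)` lies in such a coset `γ + H'`. -/
theorem result {G : Type} [Group G] (W : Variety G) (E : Effective W) (A : AbelianVariety G)
    (j : GeneratingMap W A) (φ : Cover W) (hφ : ConstantSums j φ) :
    ∃ Z ∈ E.closed, ∃ C : ℝ, 0 < C ∧
      (∀ t : φ.P, C ≤ φ.h t → (∀ y ∈ φ.fib t, y ∉ Z) → ∀ γ : A.Pt,
        (∀ D ∈ A.Nef, AtLeast φ t (φ.N / ((W.dimPred : ℝ) + 2)) (fun w =>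
          W.deg (W.cls φ.H) (W.cls (j.pic D)) * φ.h t ≤ C * A.hat D (j.pt w - γ))) ∧
        ∀ H ∈ A.Proper, AtLeast φ t (φ.N / ((W.dimPred : ℝ) + 2)) (fun w => j.pt w - γ ∉ H)) ∧
      (∀ w : W.Pt, (1 - 1 / ((W.dimPred : ℝ) + 2)) * φ.N < φ.relDeg w → C ≤ φ.h (φ.φ w) →
        (∀ y ∈ φ.fib (φ.φ w), y ∉ Z) → ∀ γ : A.Pt, DefinedOver (G := G) γ (φ.φ w) →
          (∀ D ∈ A.Nef, W.deg (W.cls φ.H) (W.cls (j.pic D)) * φ.h (φ.φ w) ≤
            C * A.hat D (j.pt w - γ)) ∧ ∀ H ∈ A.Proper, j.pt w - γ ∉ H) ∧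
      ∀ e : ℕ, {w : W.Pt | ((1 - 1 / ((W.dimPred : ℝ) + 2)) * φ.N < φ.relDeg w ∧
        (∀ y ∈ φ.fib (φ.φ w), y ∉ Z) ∧ ∃ γ : A.Pt, DefinedOver (G := G) γ (φ.φ w) ∧
          ∃ H ∈ A.Proper, j.pt w - γ ∈ H) ∧ (MulAction.orbit G (φ.φ w)).ncard ≤ e}.Finite :=
  few_on_coset E j φ hφ

end Pool.Agent.Results.MP_dd1803_nt.FewOnOneCoset
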