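import Pool.Agent.Q170.HD.Torus
import Pool.Agent.Q170.HD.Dens
import Pool.Agent.Q166.HD.Emb
import Pool.Agent.Q208.HD.Cert
import Pool.Agent.Q212.HD.FinR
import Pool.Agent.Q224.HD.PAIR
import Pool.Agent.Q224.HD.CHAIN

/-!
# MP_dd1803_nt: Zilber-Pink in `Y(1)^n` for one hundred per cent of the members of families of
subvarieties of any dimension `m` which degenerate along more than `(m + 1) / 2` hypersurfaces

**Families.** The data of a family of subvarieties `X_t` of `Y(1)^n = ℂ^n` with `r` parameters
`t = (t_1, …, t_r)` are a family `B_t ⊆ P^N` of projective algebraic sets, quotients `A_i / B_i` of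
forms of the same degree in the homogeneous coordinates `y`, and polynomials `c_i` in `t`; all
coefficients are polynomials in `t` with algebraic coefficients (`Family`). The member `X_t` consists of
the points `x` with `c_i(t) x_i = A_i(t; y) / B_i(t; y)` for some `y` in `B_t` (`Family.member`). (As `B_t`
is projective, `X_t` is closed. Every closed subvariety is a member of such families.)

The family degenerates along the hypersurfaces `D_l = 0`, `l = 1, …, L`, outside of `E_l = 0`
(`DegeneratesAlong`), `D_l, E_l ∈ ℤ[t]`: `c_i = D_l ^ e_{l i} b_{l i}`, and if `D_l(t) = 0` and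
`E_l(t) ≠ 0` then `b_{l i}(t) ≠ 0` and no point of `B_t` is on `m + 1` of the divisors `A_i B_i = 0`. The
orders `e_{l i} > 0` are independent modulo squares: no product of distinct ones is a square
(`Independent`). So the coordinates `x_i = z_i / D_l ^ e_{l i}` tend to the cusp with different speeds,
where `z_i = A_i / (b_{l i} B_i)` (`leading`).

There is no resonance along `D_l = 0` (`NonResonant`): for every `M` there is a polynomial `F` without
common factor with `D_l` such that for `D_l(t) = 0`, `E_l(t) F(t) ≠ 0` the quotients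
`z_i ^ e_{l j} / z_j ^ e_{l i}` are no `M`-th roots of unity at the (finitely many) points of `B_t` which
are on `m` of the divisors, for any two other coordinates `i ≠ j`.

**Theorem.** Let `m + 1 < 2 L`. For curves and surfaces, `m ≤ 2`, two hypersurfaces are sufficient.
1. There are a function `Φ` and polynomials `𝓔_{l, q}` without common factor with `D_l` such that
   `NoAtypical` holds for `X_t` for all `t ∈ ℤ^r` for which every `D_l(t)` has a chain of `2 n^2 + 1` prime
   factors `p_1 < p_2 < …` with `p_1 > Φ(0)`, `p_ν > Φ(p_μ)` for `μ < ν`, which do not divide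
   `𝓔_{l, 0}(t)` and `𝓔_{l, p_μ}(t)` for `μ < ν` (`PrimeChain`).
2. If every `D_l` has degree one in some variable, then `NoAtypical` holds for almost all members
   (`AlmostAll`): for every `ε > 0` there are residue classes modulo some `Q`, of proportion at
   least `1 - ε`, all of whose elements `t` have this property (the closure of the exceptional set in
   the profinite completion of `ℤ^r` has measure zero), and for `H ≥ H₀` at most `ε (2 H + 1)^r` of the
   `t` with `|t_j| ≤ H` do not have it.
3. The translates. Let `V ⊆ Y(1)^n` be any subvariety given by a projective algebraic set `B` and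
   quotients `A_i / B_i` of forms with algebraic coefficients, such that no point of `B` is on `m + 1`
   of the divisors `A_i B_i = 0` (`Variety.GeneralPosition`). For positive integers `e_{l i}`,
   `l = 1, …, L`, independent modulo squares, `L ≥ 2`, `m + 1 < 2 L`, consider the translates
   `{(∏_l t_l ^ (- e_{l i}) x_i) | x ∈ V}`, `t ∈ ℤ^L`. Then `NoAtypical` holds for almost all of them (here
   there are no resonances).

`NoAtypical` says that the irreducible closed subsets of `X_t ∩ Z` have dimension at most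
`dim Z + m - n` for all special subvarieties `Z` of `Y(1)^n` (and for all weakly special ones whose
constant coordinates are integral over the ring generated by a given finite set of algebraic numbers);
the same holds for the transcendence degrees of the points of `X_t ∩ Z`. In particular `X_t ∩ Z` is empty
if `Z` has codimension larger than `m`.

Before, `m + 2` hypersurfaces were necessary (`MP_e573c6_ag.MultiParameterFamilies`), or the
subvarieties were curves (`MP_d83ecd_ag.NoAtypicalMembers`).

**Proof.** Let `p` be a large prime factor of `D_l(t)` and `φ` an embedding of `ℂ` in a complete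
algebraically closed field over `ℚ_p` such that the values of the algebraically independent coordinates
are integral (`emb`). By Nullstellensatz certificates all coordinates of `x ∈ X_t` except
those of a set `I` with at most `m` elements have poles: `|x_i| = |D_l(t)| ^ (- e_{l i})`. Suppose that `I`
has exactly `m` elements and `x` is in a special subvariety of too small dimension. Then two of the
coordinates with poles are related by an isogeny, of minimal degree `N`. By the Tate parametrization
`N = a b (g p^s)^2`, with `a / b = e_{l j} / e_{l i}` in lowest terms, where `g` is the order of the root of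
unity `ζ` of order prime to `p` near to `x_i ^ a / x_j ^ b` (`pair`). As the stratum of `I` is finite,
the residue of `ζ` is in a field of `p ^ D₁` elements, and `g ≤ p ^ D₁` (`finr`). We use this for three
primes `p_1`, `p_2`, `p_3` of the chain, and the same pair of coordinates: `N` does not depend on the
prime, so `g_1 p_1^(s_1) = g_2 p_2^(s_2) = g_3 p_3^(s_3)`, hence `p_1^(s_1)` divides `g_2`, and
`g_3 ≤ g_1 p_1^(s_1) ≤ p_2 ^ (2 D₁)` is small compared with `p_3`. This is a resonance modulo `p_3`, of an
order bounded in terms of `p_2`, which is excluded. So for each `l` there is a place at which all but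
at most `m - 1` coordinates have poles. Now the parity argument over `𝔽_2` (`coreW'`) needs only
`L (m + 1) > m + 1 + L (m - 1)`. The density is a consequence of the existence of bounded prime
factors of `D_l(t)` for almost all `t` (`chain_bdd`), applied `2 n^2 + 1` times.
-/

set_option autoImplicit false

namespace Pool.Agent.Results.MP_dd1803_nt.FewerDegenerateHypersurfaces

open MvPolynomial

/-- The field of algebraic numbers. -/
noncomputable abbrev QBar : IntermediateField ℚ ℂ := algebraicClosure ℚ ℂ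

/-- Polynomials in `y_0, …, y_N` whose coefficients are polynomials in `t_1, …, t_r` with algebraic
coefficients. -/
abbrev Form (r N : ℕ) : Type := MvPolynomial (Fin (N + 1)) (MvPolynomial (Fin r) QBar)

/-- The value at `t` of a polynomial in the parameters. -/
noncomputable def atParameter {r : ℕ} (t : Fin r → ℂ) : MvPolynomial (Fin r) QBar →+* ℂ :=
  (aeval t : MvPolynomial (Fin r) QBar →ₐ[QBar] ℂ).toRingHom

/-- The value `F(t; y)`. -/
noncomputable def value {r N : ℕ} (t : Fin r → ℂ) (y : Fin (N + 1) → ℂ) (F : Form r N) : ℂ :=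
  eval₂ (atParameter t) y F

/-- The data of a family of subvarieties of `Y(1)^n` with `r` parameters: the forms `G k`, which define
the family `B_t ⊆ P^N` of projective algebraic sets, the forms `A i`, `B i` of the same degree, and the
polynomials `c i` in the parameters. -/
structure Family (r N n : ℕ) where
  κ : Type
  fintype : Fintype κ
  G : κ → Form r N
  A : Fin n → Form r N
  B : Fin n → Form r N
  degree : Fin n → ℕ
  c : Fin n → MvPolynomial (Fin r) QBar
  homG : ∀ k, ∃ d, (G k).IsHomogeneous d
  degree_pos : ∀ i, 0 < degree i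
  homA : ∀ i, (A i).IsHomogeneous (degree i)
  homB : ∀ i, (B i).IsHomogeneous (degree i)

section family

variable {r N n : ℕ}

/-- `y` is a vector of homogeneous coordinates of a point of `B_t`. -/
def Family.OnB (X : Family r N n) (t : Fin r → ℂ) (y : Fin (N + 1) → ℂ) : Prop :=
  y ≠ 0 ∧ ∀ k, value t y (X.G k) = 0

/-- The member `X_t ⊆ ℂ^n = Y(1)^n`: the points `x` with `c_i(t) x_i = A_i(t; y) / B_i(t; y)` for a point
`y` of `B_t`. -/
def Family.member (X : Family r N n) (t : Fin r → ℂ) : Set (Fin n → ℂ) :=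
  {x | ∃ y, X.OnB t y ∧ ∀ i, atParameter t (X.c i) * value t y (X.B i) * x i = value t y (X.A i)}

/-- The family degenerates along the hypersurface `D = 0` outside of `E = 0` with the orders `e i`:
`c_i = D ^ e_i b_i`, and if `D(t) = 0` and `E(t) ≠ 0` then `b_i(t) ≠ 0` and the divisors `A_i B_i = 0`
on `B_t` are in general position: no point is on `m + 1` of them. -/
structure DegeneratesAlong (X : Family r N n) (m : ℕ) (D E : MvPolynomial (Fin r) ℤ)
    (e : Fin n → ℕ) (b : Fin n → MvPolynomial (Fin r) QBar) : Prop where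
  factor : ∀ i, X.c i = MvPolynomial.map (Int.castRingHom QBar) D ^ e i * b i
  unit : ∀ t, aeval t D = 0 → aeval t E ≠ 0 → ∀ i, atParameter t (b i) ≠ 0
  general : ∀ t, aeval t D = 0 → aeval t E ≠ 0 → ∀ I : Finset (Fin n), I.card = m + 1 →
    ∀ y, X.OnB t y → ∃ i ∈ I, value t y (X.A i) * value t y (X.B i) ≠ 0

/-- `D` and `E` have no common factor of positive degree in `ℚ[t]`. -/
def NoCommonFactor (D E : MvPolynomial (Fin r) ℤ) : Prop :=
  IsRelPrime (MvPolynomial.map (Int.castRingHom ℚ) D) (MvPolynomial.map (Int.castRingHom ℚ) E)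

/-- The leading coefficient `z_i(t; y) = A_i(t; y) / (b_i(t) B_i(t; y))` of `x_i = z_i / D ^ e_i`. -/
noncomputable def leading (X : Family r N n) (b : Fin n → MvPolynomial (Fin r) QBar)
    (t : Fin r → ℂ) (y : Fin (N + 1) → ℂ) (i : Fin n) : ℂ :=
  value t y (X.A i) / (atParameter t (b i) * value t y (X.B i))

/-- No resonance along `D = 0`: at the points of `B_t` which are on `m` of the divisors, the quotients
`z_i ^ e_j / z_j ^ e_i` of the leading coefficients of any two of the other coordinates are no
`M`-th roots of unity, if `D(t) = 0` and `t` is outside of a hypersurface which depends on `M`. -/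
def NonResonant (X : Family r N n) (m : ℕ) (D E : MvPolynomial (Fin r) ℤ)
    (e : Fin n → ℕ) (b : Fin n → MvPolynomial (Fin r) QBar) : Prop :=
  ∀ M : ℕ, 0 < M → ∃ F : MvPolynomial (Fin r) ℤ, NoCommonFactor D F ∧
    ∀ t, aeval t D = 0 → aeval t E ≠ 0 → aeval t F ≠ 0 →
      ∀ I : Finset (Fin n), I.card = m → ∀ i j, i ∉ I → j ∉ I → i ≠ j → ∀ y, X.OnB t y →
        (∀ k ∈ I, value t y (X.A k) * value t y (X.B k) = 0) →
        leading X b t y i ^ (e j * M) ≠ leading X b t y j ^ (e i * M)

end family

/-- The orders are positive and independent: no product of distinct `e l i` is a square. -/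
def Independent {L n : ℕ} (e : Fin L → Fin n → ℕ) : Prop :=
  (∀ l i, 0 < e l i) ∧ ∀ P : Finset (Fin L × Fin n), P.Nonempty →
    ¬ IsSquare (∏ x ∈ P, e x.1 x.2)

/-- The subset `X` of `Y(1)^n` has no atypical intersection, with respect to the dimension `m`, with
special subvarieties `Z` whose constant coordinates are singular moduli or integral over `ℤ[Γ]`: the
irreducible closed subsets of `X ∩ Z` have dimension at most `dim Z + m - n`. -/
def NoAtypical {n : ℕ} (Γ : Finset QBar) (m : ℕ) (X : Set (Fin n → ℂ)) : Prop :=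
  Pool.Agent.Y152.RP.Fam.NoAtypical
    (algebraMap (Algebra.adjoin ℤ (algebraMap QBar ℂ '' (Γ : Set QBar))) ℂ) QBar.toSubfield m X

/-- The property `P` holds for almost all integral points: for every `ε > 0`,
* there are a positive integer `Q` and residue classes modulo `Q`, of proportion at least `1 - ε`, all
  of whose elements have the property, and
* for `H ≥ H₀` at most `ε (2 H + 1)^r` of the `t` with `|t_j| ≤ H` do not have it. -/
def AlmostAll {r : ℕ} (P : (Fin r → ℤ) → Prop) : Prop := ∀ ε : ℝ, 0 < ε →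
  (∃ (Q : ℕ) (R : Set (Fin r → ZMod Q)), 0 < Q ∧ (1 - ε) * (Q : ℝ) ^ r ≤ R.ncard ∧
    ∀ t : Fin r → ℤ, (fun j => (t j : ZMod Q)) ∈ R → P t) ∧
  ∃ H₀ : ℕ, ∀ H : ℕ, H₀ ≤ H →
    ({t : Fin r → ℤ | (∀ j, |t j| ≤ H) ∧ ¬ P t}.ncard : ℝ) ≤ ε * (2 * H + 1) ^ r

/-- A chain of `T` prime factors of the integer `d`: each is larger than `Φ` of the smaller ones (and
than `Φ 0`), and does not divide the corresponding integers `E`. -/
def PrimeChain (T : ℕ) (Φ : ℕ → ℕ) (d : ℤ) (E : ℕ → ℤ) : Prop := ∃ p : Fin T → ℕ,
  (∀ ν, (p ν).Prime ∧ (p ν : ℤ) ∣ d ∧ Φ 0 < p ν ∧ ¬ (p ν : ℤ) ∣ E 0) ∧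
  ∀ μ ν, μ < ν → Φ (p μ) < p ν ∧ ¬ (p ν : ℤ) ∣ E (p μ)

/-- The data of one subvariety of `Y(1)^n`: a projective algebraic set `B ⊆ P^N`, defined by forms
`G k`, and quotients `A i / B i` of forms of the same degree, all with algebraic coefficients. -/
structure Variety (N n : ℕ) where
  κ : Type
  fintype : Fintype κ
  G : κ → MvPolynomial (Fin (N + 1)) QBar
  A : Fin n → MvPolynomial (Fin (N + 1)) QBar
  B : Fin n → MvPolynomial (Fin (N + 1)) QBar
  degree : Fin n → ℕ
  homG : ∀ k, ∃ d, (G k).IsHomogeneous d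
  degree_pos : ∀ i, 0 < degree i
  homA : ∀ i, (A i).IsHomogeneous (degree i)
  homB : ∀ i, (B i).IsHomogeneous (degree i)

/-- The divisors `A_i B_i = 0` on `B` are in general position: no point is on `m + 1` of them. -/
def Variety.GeneralPosition {N n : ℕ} (V : Variety N n) (m : ℕ) : Prop :=
  ∀ I : Finset (Fin n), I.card = m + 1 → ∀ y : Fin (N + 1) → ℂ, y ≠ 0 →
    (∀ k, aeval y (V.G k) = 0) → ∃ i ∈ I, aeval y (V.A i) * aeval y (V.B i) ≠ 0

/-- The translate of the variety by the point with the coordinates `∏_l t_l ^ (- e_{l,i})` of the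
torus. -/
def Variety.translate {N n L : ℕ} (V : Variety N n) (e : Fin L → Fin n → ℕ) (t : Fin L → ℤ) :
    Set (Fin n → ℂ) :=
  {x | ∃ y : Fin (N + 1) → ℂ, y ≠ 0 ∧ (∀ k, aeval y (V.G k) = 0) ∧
    ∀ i, (∏ l, (t l : ℂ) ^ e l i) * aeval y (V.B i) * x i = aeval y (V.A i)}

theorem member_eq {r N n : ℕ} (X : Family r N n) (t : Fin r → ℤ) :
    Pool.Agent.Q170.HD.img X.G X.A X.B X.c (Pool.Agent.Q170.HD.tc t) =
      X.member fun j => (t j : ℂ) := by
  ext x
  constructor
  · rintro ⟨y, h1, h2, h3⟩
    exact ⟨y, ⟨h1, h2⟩, h3⟩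
  · rintro ⟨y, ⟨h1, h2⟩, h3⟩
    exact ⟨y, h1, h2, h3⟩

/-- The main theorem on families. -/
theorem families {r N n m L : ℕ} (X : Family r N n) (D E : Fin L → MvPolynomial (Fin r) ℤ)
    (e : Fin L → Fin n → ℕ) (b : Fin L → Fin n → MvPolynomial (Fin r) QBar)
    (hL : m + 1 < 2 * L) (he : Independent e)
    (hX : ∀ l, DegeneratesAlong X m (D l) (E l) (e l) (b l)) (hDE : ∀ l, NoCommonFactor (D l) (E l))
    (hres : ∀ l, NonResonant X m (D l) (E l) (e l) (b l)) (Γ : Finset QBar) :
    (∃ (Φ : ℕ → ℕ) (𝓔 : Fin L → ℕ → MvPolynomial (Fin r) ℤ), (∀ l q, NoCommonFactor (D l) (𝓔 l q)) ∧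
      ∀ t : Fin r → ℤ, (∀ l, PrimeChain (2 * n ^ 2 + 1) Φ (eval t (D l)) fun q =>
        eval t (𝓔 l q)) → NoAtypical Γ m (X.member fun j => (t j : ℂ))) ∧
    ((∀ l, ∃ j, degreeOf j (D l) = 1) →
      AlmostAll fun t : Fin r → ℤ => NoAtypical Γ m (X.member fun j => (t j : ℂ))) := by
  classical
  have := X.fintype
  have hex : ∀ l M, ∃ F : MvPolynomial (Fin r) ℤ, NoCommonFactor (D l) F ∧ (0 < M →
      ∀ t, aeval t (D l) = 0 → aeval t (E l) ≠ 0 → aeval t F ≠ 0 →
      ∀ I : Finset (Fin n), I.card = m → ∀ i j, i ∉ I → j ∉ I → i ≠ j → ∀ y, X.OnB t y →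
        (∀ k ∈ I, value t y (X.A k) * value t y (X.B k) = 0) →
        leading X (b l) t y i ^ (e l j * M) ≠ leading X (b l) t y j ^ (e l i * M)) := by
    intro l M
    rcases Nat.eq_zero_or_pos M with hM | hM
    · refine ⟨1, ?_, fun h => absurd h (by omega)⟩
      unfold NoCommonFactor
      rw [map_one]
      exact isRelPrime_one_right
    · obtain ⟨F, h1, h2⟩ := hres l M hM
      exact ⟨F, h1, fun _ => h2⟩
  choose Fm hFm1 hFm2 using hex
  have hind : Pool.Agent.Q170.ZP.IndExp 1 e := by
    refine ⟨he.1, fun P hP => ?_⟩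
    rintro ⟨q, hq, hsq⟩
    have hq1 : q = 1 := by
      by_contra hne
      obtain ⟨p, hp, hpq⟩ := Nat.exists_prime_and_dvd hne
      exact absurd (hq.2 p hp hpq) (by have := hp.one_lt; omega)
    rw [hq1, mul_one] at hsq
    exact he.2 P hP hsq
  have hmain := Pool.Agent.Q170.HD.hdMain (r := r) (N := N) (n := n) (m := m) (L := L) X.G X.homG
    X.A X.B X.degree X.degree_pos X.homA X.homB X.c b D E e hind (fun l i => (hX l).factor i)
    (fun l t hD hE => ⟨fun I hI y h1 h2 => by
      by_contra h0
      obtain ⟨i, hi, h3⟩ := (hX l).general t hD hE I hI y ⟨h0, h1⟩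
      exact h3 (h2 i hi), (hX l).unit t hD hE⟩) Fm
    (by
      intro l M hM t hD hE hF I hI i j hi hj hij y hy hyG hyI heq
      have hnz : ∀ u, u ∉ I → value t y (X.A u) ≠ 0 ∧ value t y (X.B u) ≠ 0 := by
        intro u hu
        rw [← mul_ne_zero_iff]
        intro h
        obtain ⟨k, hk, h3⟩ := (hX l).general t hD hE (insert u I)
          (by rw [Finset.card_insert_of_notMem hu, hI]) y ⟨hy, hyG⟩
        rcases Finset.mem_insert.1 hk with rfl | hk
        · exact h3 h
        · exact h3 (hyI k hk)
      have hb := (hX l).unit t hD hE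
      refine hFm2 l M hM t hD hE hF I hI i j hi hj hij y ⟨hy, hyG⟩ hyI ?_
      unfold leading
      rw [div_pow, div_pow, div_eq_div_iff (pow_ne_zero _ (mul_ne_zero (hb i) (hnz i hi).2))
        (pow_ne_zero _ (mul_ne_zero (hb j) (hnz j hj).2))]
      change (value t y (X.A i) ^ e l j * (atParameter t (b l j) * value t y (X.B j)) ^ e l i) ^ M =
        (value t y (X.A j) ^ e l i * (atParameter t (b l i) * value t y (X.B i)) ^ e l j) ^ M at heq
      calc value t y (X.A i) ^ (e l j * M) * (atParameter t (b l j) * value t y (X.B j)) ^ (e l i * M) =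
          (value t y (X.A i) ^ e l j * (atParameter t (b l j) * value t y (X.B j)) ^ e l i) ^ M := by ring
        _ = (value t y (X.A j) ^ e l i * (atParameter t (b l i) * value t y (X.B i)) ^ e l j) ^ M := heq
        _ = _ := by ring)
    Pool.Agent.Q166.HD.emb Pool.Agent.Q208.HD.cert Pool.Agent.Q212.HD.finr Pool.Agent.Q224.HD.pair
    hL Γ
  obtain ⟨Φ, D₁, hΦ'⟩ := hmain
  have hΦ : ∀ t : Fin r → ℤ, (∀ l, Pool.Agent.Q170.HD.Chain (2 * n ^ 2 + 1) Φ (eval t (D l))
      (fun q => eval t (E l * ∏ M ∈ Finset.Icc 1 ((q + 1) ^ (2 * D₁)), Fm l M))) →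
      NoAtypical Γ m (X.member fun j => (t j : ℂ)) := by
    intro t ht
    have h := hΦ' t ht
    rw [member_eq] at h
    exact h
  let 𝓔 : Fin L → ℕ → MvPolynomial (Fin r) ℤ := fun l q =>
    E l * ∏ M ∈ Finset.Icc 1 ((q + 1) ^ (2 * D₁)), Fm l M
  have h𝓔 : ∀ l q, NoCommonFactor (D l) (𝓔 l q) := by
    intro l q
    unfold NoCommonFactor
    simp only [𝓔, map_mul, map_prod]
    exact (hDE l).mul_right (IsRelPrime.prod_right fun M _ => hFm1 l M)
  refine ⟨⟨Φ, 𝓔, h𝓔, fun t ht => hΦ t ht⟩, fun hdeg ε hε => ⟨?_, ?_⟩⟩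
  · obtain ⟨Q, R, hQ, hR, hRt⟩ := Pool.Agent.Q170.HD.chain_res r L (2 * n ^ 2 + 1) D 𝓔 Φ hdeg h𝓔
      ε hε
    exact ⟨Q, R, hQ, hR, fun t ht => hΦ t (hRt t ht)⟩
  · obtain ⟨H₀, hH⟩ := Pool.Agent.Q224.HD.chain r L (2 * n ^ 2 + 1) D 𝓔 Φ hdeg h𝓔 ε hε
    refine ⟨H₀, fun H hH0 => le_trans ?_ (hH H hH0)⟩
    rw [Nat.cast_le]
    refine Set.ncard_le_ncard ?_ ?_
    · rintro t ⟨ht, hbad⟩
      exact ⟨ht, fun h => hbad (hΦ t fun l => (h l).2)⟩
    · refine (Finset.finite_toSet (Pool.Agent.Q170.ZP.Count.box r H)).subset ?_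
      rintro t ⟨ht, -⟩
      exact Finset.mem_coe.2 (Pool.Agent.Q170.ZP.Count.mem_box.2 ht)

section translates

variable {N n m L : ℕ} (V : Variety N n) (e : Fin L → Fin n → ℕ)

/-- the family of the translates -/
noncomputable def Variety.family : Family L N n where
  κ := V.κ
  fintype := V.fintype
  G k := MvPolynomial.map C (V.G k)
  A i := MvPolynomial.map C (V.A i)
  B i := MvPolynomial.map C (V.B i)
  degree := V.degree
  c i := ∏ l, X l ^ e l i
  homG k := by
    obtain ⟨d, hd⟩ := V.homG k
    exact ⟨d, hd.map _⟩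
  degree_pos := V.degree_pos
  homA i := (V.homA i).map _
  homB i := (V.homB i).map _

theorem atParameter_C {r : ℕ} (t : Fin r → ℂ) (a : QBar) : atParameter t (C a) = algebraMap QBar ℂ a :=
  aeval_C _ _

theorem atParameter_X {r : ℕ} (t : Fin r → ℂ) (j : Fin r) : atParameter t (X j) = t j := aeval_X _ _

theorem value_const {r : ℕ} (t : Fin r → ℂ) (y : Fin (N + 1) → ℂ)
    (P : MvPolynomial (Fin (N + 1)) QBar) : value t y (MvPolynomial.map C P) = aeval y P := by
  have h : (atParameter t).comp (C : QBar →+* MvPolynomial (Fin r) QBar) = algebraMap QBar ℂ := by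
    ext a
    rw [RingHom.comp_apply, atParameter_C]
  rw [value, eval₂_map, h, aeval_def]

theorem translate_eq (t : Fin L → ℤ) :
    (V.family e).member (fun j => (t j : ℂ)) = V.translate e t := by
  have hc : ∀ i, atParameter (fun j => (t j : ℂ)) ((V.family e).c i) = ∏ l, (t l : ℂ) ^ e l i := by
    intro i
    change atParameter _ (∏ l, X l ^ e l i) = _
    rw [map_prod]
    exact Finset.prod_congr rfl fun l _ => by rw [map_pow, atParameter_X]
  ext x
  constructor
  · rintro ⟨y, ⟨h1, h2⟩, h3⟩
    refine ⟨y, h1, fun k => ?_, fun i => ?_⟩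
    · have := h2 k
      rwa [show (V.family e).G k = MvPolynomial.map C (V.G k) from rfl, value_const] at this
    · have := h3 i
      rwa [hc, show (V.family e).B i = MvPolynomial.map C (V.B i) from rfl, value_const,
        show (V.family e).A i = MvPolynomial.map C (V.A i) from rfl, value_const] at this
  · rintro ⟨y, h1, h2, h3⟩
    refine ⟨y, ⟨h1, fun k => ?_⟩, fun i => ?_⟩
    · rw [show (V.family e).G k = MvPolynomial.map C (V.G k) from rfl, value_const]
      exact h2 k
    · rw [hc, show (V.family e).B i = MvPolynomial.map C (V.B i) from rfl, value_const,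
        show (V.family e).A i = MvPolynomial.map C (V.A i) from rfl, value_const]
      exact h3 i

/-- The translates of one subvariety. -/
theorem translates (hL : m + 1 < 2 * L) (hL2 : 2 ≤ L) (he : Independent e)
    (hV : V.GeneralPosition m) (Γ : Finset QBar) :
    AlmostAll fun t : Fin L → ℤ => NoAtypical Γ m (V.translate e t) := by
  classical
  have := V.fintype
  have hind : Pool.Agent.Q170.ZP.IndExp 1 e := by
    refine ⟨he.1, fun P hP => ?_⟩
    rintro ⟨q, hq, hsq⟩
    have hq1 : q = 1 := by
      by_contra hne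
      obtain ⟨p, hp, hpq⟩ := Nat.exists_prime_and_dvd hne
      exact absurd (hq.2 p hp hpq) (by have := hp.one_lt; omega)
    rw [hq1, mul_one] at hsq
    exact he.2 P hP hsq
  have hGP : ∀ I : Finset (Fin n), I.card = m + 1 → ∀ y : Fin (N + 1) → ℂ,
      (∀ k, aeval y (V.G k) = 0) → (∀ i ∈ I, aeval y (V.A i) * aeval y (V.B i) = 0) → y = 0 := by
    intro I hI y h1 h2
    by_contra h0
    obtain ⟨i, hi, h3⟩ := hV I hI y h0 h1
    exact h3 (h2 i hi)
  have hE : ∀ (l : Fin L) (t : Fin L → ℂ),
      aeval t (∏ l' ∈ Finset.univ.erase l, (X l' : MvPolynomial (Fin L) ℤ)) ≠ 0 →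
      ∀ l', l' ≠ l → t l' ≠ 0 := by
    intro l t h l' hl' h0
    apply h
    rw [map_prod]
    exact Finset.prod_eq_zero (Finset.mem_erase.2 ⟨hl', Finset.mem_univ _⟩) (by rw [aeval_X, h0])
  have hb : ∀ (l : Fin L) (i : Fin n) (t : Fin L → ℂ),
      atParameter t (∏ l' ∈ Finset.univ.erase l, X l' ^ e l' i) =
        ∏ l' ∈ Finset.univ.erase l, t l' ^ e l' i := by
    intro l i t
    rw [map_prod]
    exact Finset.prod_congr rfl fun l' _ => by rw [map_pow, atParameter_X]
  have hbn : ∀ (l : Fin L) (i : Fin n) (t : Fin L → ℂ), (∀ l', l' ≠ l → t l' ≠ 0) →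
      ∏ l' ∈ Finset.univ.erase l, t l' ^ e l' i ≠ 0 := fun l i t ht =>
    Finset.prod_ne_zero_iff.2 fun l' hl' => pow_ne_zero _ (ht l' (Finset.mem_erase.1 hl').1)
  have hfam := (families (V.family e) (fun l => (X l : MvPolynomial (Fin L) ℤ))
    (fun l => ∏ l' ∈ Finset.univ.erase l, (X l' : MvPolynomial (Fin L) ℤ)) e
    (fun l i => ∏ l' ∈ Finset.univ.erase l, X l' ^ e l' i) (m := m) hL he ?_ ?_ ?_ Γ).2
    (fun l => ⟨l, by rw [degreeOf_X, if_pos rfl]⟩)
  · have h : (fun t : Fin L → ℤ => NoAtypical Γ m ((V.family e).member fun j => (t j : ℂ))) =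
        fun t : Fin L → ℤ => NoAtypical Γ m (V.translate e t) := by
      funext t
      rw [translate_eq]
    rw [← h]
    exact hfam
  · intro l
    refine ⟨fun i => ?_, fun t _ h i => ?_, fun t _ _ I hI y hy => ?_⟩
    · rw [MvPolynomial.map_X]
      exact (Finset.mul_prod_erase _ _ (Finset.mem_univ l)).symm
    · rw [hb]
      exact hbn l i t (hE l t h)
    · obtain ⟨i, hi, h3⟩ := hV I hI y hy.1 (fun k => by
        have := hy.2 k
        rwa [show (V.family e).G k = MvPolynomial.map C (V.G k) from rfl, value_const] at this)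
      refine ⟨i, hi, ?_⟩
      rwa [show (V.family e).B i = MvPolynomial.map C (V.B i) from rfl, value_const,
        show (V.family e).A i = MvPolynomial.map C (V.A i) from rfl, value_const]
  · intro l
    unfold NoCommonFactor
    rw [map_prod]
    refine IsRelPrime.prod_right fun l' hl' => ?_
    rw [MvPolynomial.map_X, MvPolynomial.map_X]
    have hirr : Irreducible (X l : MvPolynomial (Fin L) ℚ) := (MvPolynomial.X_prime).irreducible
    rw [hirr.isRelPrime_iff_not_dvd]
    rintro ⟨w, hw⟩
    have h1 := congrArg (eval (fun u => if u = l then (0 : ℚ) else 1)) hw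
    rw [map_mul, eval_X, eval_X, if_pos rfl, zero_mul, if_neg (Finset.mem_erase.1 hl').1] at h1
    exact one_ne_zero h1
  · intro l M hM
    have hex : ∀ x : Fin n × Fin n × Finset (Fin n), ∃ F : MvPolynomial (Fin L) ℤ,
        NoCommonFactor (X l) F ∧ (x.1 ≠ x.2.1 → x.2.2.card = m → x.1 ∉ x.2.2 → x.2.1 ∉ x.2.2 →
        ∀ t : Fin L → ℂ, (∀ l', l' ≠ l → t l' ≠ 0) → aeval t F ≠ 0 →
        ∀ y : Fin (N + 1) → ℂ, y ≠ 0 → (∀ k, aeval y (V.G k) = 0) →
        (∀ k ∈ x.2.2, aeval y (V.A k) * aeval y (V.B k) = 0) →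
        (aeval y (V.A x.1) ^ e l x.2.1 *
          ((∏ l' ∈ Finset.univ.erase l, t l' ^ e l' x.2.1) * aeval y (V.B x.2.1)) ^ e l x.1) ^ M ≠
        (aeval y (V.A x.2.1) ^ e l x.1 *
          ((∏ l' ∈ Finset.univ.erase l, t l' ^ e l' x.1) * aeval y (V.B x.1)) ^ e l x.2.1) ^ M) := by
      rintro ⟨i, j, I⟩
      by_cases h : i ≠ j ∧ I.card = m ∧ i ∉ I ∧ j ∉ I
      · obtain ⟨h1, h2, h3, h4⟩ := h
        obtain ⟨F, hF1, hF2⟩ := Pool.Agent.Q170.HD.torus_one V.G V.homG V.A V.B V.degree
          V.degree_pos V.homA V.homB e hind hL2 hGP l M hM i j h1 I h2 h3 h4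
        exact ⟨F, hF1, fun _ _ _ _ => hF2⟩
      · refine ⟨1, ?_, fun h1 h2 h3 h4 => absurd ⟨h1, h2, h3, h4⟩ h⟩
        unfold NoCommonFactor
        rw [map_one]
        exact isRelPrime_one_right
    choose F hF1 hF2 using hex
    refine ⟨∏ x, F x, ?_, ?_⟩
    · unfold NoCommonFactor
      rw [map_prod]
      exact IsRelPrime.prod_right fun x _ => hF1 x
    · intro t _ htE htF I hI i j hi hj hij y hy hyI heq
      have ht := hE l t htE
      have hyG : ∀ k, aeval y (V.G k) = 0 := fun k => by
        have := hy.2 k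
        rwa [show (V.family e).G k = MvPolynomial.map C (V.G k) from rfl, value_const] at this
      have hA : ∀ i, value t y ((V.family e).A i) = aeval y (V.A i) := fun i => value_const t y _
      have hB : ∀ i, value t y ((V.family e).B i) = aeval y (V.B i) := fun i => value_const t y _
      have hyI' : ∀ k ∈ I, aeval y (V.A k) * aeval y (V.B k) = 0 := fun k hk => by
        have := hyI k hk
        rwa [hA, hB] at this
      have htF' : aeval t (F (i, j, I)) ≠ 0 := by
        intro h0
        apply htF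
        rw [map_prod]
        exact Finset.prod_eq_zero (Finset.mem_univ (i, j, I)) h0
      have hnz : ∀ u, u ∉ I → aeval y (V.B u) ≠ 0 := by
        intro u hu h
        refine hy.1 (hGP (insert u I) (by rw [Finset.card_insert_of_notMem hu, hI]) y hyG ?_)
        intro k hk
        rcases Finset.mem_insert.1 hk with rfl | hk
        · rw [h, mul_zero]
        · exact hyI' k hk
      refine hF2 (i, j, I) hij hI hi hj t ht htF' y hy.1 hyG hyI' ?_
      simp only
      unfold leading at heq
      rw [hA, hA, hB, hB, hb, hb, div_pow, div_pow,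
        div_eq_div_iff (pow_ne_zero _ (mul_ne_zero (hbn l i t ht) (hnz i hi)))
        (pow_ne_zero _ (mul_ne_zero (hbn l j t ht) (hnz j hj)))] at heq
      generalize (∏ l' ∈ Finset.univ.erase l, t l' ^ e l' i) = bi at heq ⊢
      generalize (∏ l' ∈ Finset.univ.erase l, t l' ^ e l' j) = bj at heq ⊢
      calc (aeval y (V.A i) ^ e l j * (bj * aeval y (V.B j)) ^ e l i) ^ M =
          aeval y (V.A i) ^ (e l j * M) * (bj * aeval y (V.B j)) ^ (e l i * M) := by ring
        _ = aeval y (V.A j) ^ (e l i * M) * (bi * aeval y (V.B i)) ^ (e l j * M) := heq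
        _ = _ := by ring

end translates

/-- Zilber-Pink in `Y(1)^n` for almost all members of families which degenerate along more than
`(m + 1) / 2` hypersurfaces. -/
theorem result :
    -- families
    (∀ (r N n m L : ℕ) (X : Family r N n) (D E : Fin L → MvPolynomial (Fin r) ℤ)
      (e : Fin L → Fin n → ℕ) (b : Fin L → Fin n → MvPolynomial (Fin r) QBar),
      m + 1 < 2 * L → Independent e → (∀ l, DegeneratesAlong X m (D l) (E l) (e l) (b l)) →
      (∀ l, NoCommonFactor (D l) (E l)) → (∀ l, NonResonant X m (D l) (E l) (e l) (b l)) →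
      ∀ Γ : Finset QBar,
      -- (1) members with chains of prime factors
      (∃ (Φ : ℕ → ℕ) (𝓔 : Fin L → ℕ → MvPolynomial (Fin r) ℤ),
        (∀ l q, NoCommonFactor (D l) (𝓔 l q)) ∧
        ∀ t : Fin r → ℤ, (∀ l, PrimeChain (2 * n ^ 2 + 1) Φ (eval t (D l)) fun q =>
          eval t (𝓔 l q)) → NoAtypical Γ m (X.member fun j => (t j : ℂ))) ∧
      -- (2) almost all members
      ((∀ l, ∃ j, degreeOf j (D l) = 1) →
        AlmostAll fun t : Fin r → ℤ => NoAtypical Γ m (X.member fun j => (t j : ℂ)))) ∧
    -- (3) translates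
    (∀ (N n m L : ℕ) (V : Variety N n) (e : Fin L → Fin n → ℕ), m + 1 < 2 * L → 2 ≤ L →
      Independent e → V.GeneralPosition m → ∀ Γ : Finset QBar,
      AlmostAll fun t : Fin L → ℤ => NoAtypical Γ m (V.translate e t)) :=
  ⟨fun _ _ _ _ _ X D E e b hL he hX hDE hres Γ => families X D E e b hL he hX hDE hres Γ,
    fun _ _ _ _ V e hL hL2 he hV Γ => translates V e hL hL2 he hV Γ⟩

end Pool.Agent.Results.MP_dd1803_nt.FewerDegenerateHypersurfaces
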