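import Mathlib
import Pool.Agent.Q79.ZB.Main

/-!
MP_dd1803_nt, Q1: points of full degree over projective space on subvarieties of abelian varieties
lie in no proper special subvariety, and in no coset `γ + H` with `γ` defined over the base field.
-/

set_option autoImplicit false

namespace Pool.Agent.Results.MP_dd1803_nt.FullPointsOffCosets

open Pool.Agent.Q8.KS Pool.Agent.Q79.ZB
open Pool.Agent.Q8.ZA (AbelianVariety DefinedOver)

/-- Let `A` be an abelian variety over a number field `K` with absolute Galois group `G` over which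
all endomorphisms of `A` are defined, let `j : W → A` be a morphism from a projective variety of
dimension `m` (e.g. the inclusion of a subvariety) whose image is not contained in a translate of a
proper abelian subvariety, and let `φ : W → ℙ^m` be a finite morphism of degree `N`. Put
`H = φ^* O(1)`. There is `C > 0` such that:

(1) For every point `w` of `W` with `[K(w) : K(φ(w))] = N` and `h(φ(w)) ≥ C`, and every point `γ` of
`A` defined over `K(φ(w))`, the point `j(w) - γ` lies in no algebraic subgroup of `A` other than
`A`, and its Néron-Tate height with respect to any nef class `D` is at least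
`(j^* D ⋅ H^(m-1) / N) h(φ(w)) / 2`.

(2) For every `e` there are only finitely many points `w` of `W` with `[K(w) : K(φ(w))] = N` and
`[K(φ(w)) : K] ≤ e` such that `j(w)` lies in a coset `γ + H'` of an algebraic subgroup `H' ≠ A`
with `γ` defined over `K(φ(w))`. -/
theorem result {G : Type} [Group G] (W : Variety G) (A : AbelianVariety G)
    (j : GeneratingMap W A) (φ : Cover W) (hφ : ConstantSums j φ) :
    ∃ C : ℝ, 0 < C ∧
      (∀ w : W.Pt, φ.relDeg w = φ.N → C ≤ φ.h (φ.φ w) →
        ∀ γ : A.Pt, DefinedOver (G := G) γ (φ.φ w) →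
          (∀ D ∈ A.Nef, W.deg (W.cls φ.H) (W.cls (j.pic D)) / φ.N * (φ.h (φ.φ w) / 2)
            ≤ A.hat D (j.pt w - γ)) ∧
          ∀ H ∈ A.Proper, j.pt w - γ ∉ H) ∧
      ∀ e : ℕ, {w : W.Pt | (φ.relDeg w = φ.N ∧ ∃ γ : A.Pt, DefinedOver (G := G) γ (φ.φ w) ∧
        ∃ H ∈ A.Proper, j.pt w - γ ∈ H) ∧ (MulAction.orbit G (φ.φ w)).ncard ≤ e}.Finite :=
  cosets j φ hφ

end Pool.Agent.Results.MP_dd1803_nt.FullPointsOffCosets
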